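import Pool.Agent.MP_1dd261_pr.Odd.H
import Pool.Agent.Mg.F1dd261.G61d9a7

namespace Pool.Agent.Results.MP_1dd261_pr.Half

open Pool.Agent.MP_1dd261_pr

theorem result (n k : ℕ) [NeZero k] (hn : 2 * k ≤ n) (w : ℝ) (hw : 0 ≤ w)
    (h : n = 2 * k + 1 → 3 ≤ k → w ≤ 2) :
    ∃ (μ : (Fin k → Fin n) → ℝ) (K : Fin k → (Fin k → Fin n) → Fin n → ℝ), IsMAC w μ K := by
  have hk := Nat.pos_of_ne_zero (NeZero.ne k)
  rcases Nat.even_or_odd' n with ⟨m, rfl | rfl⟩
  · exact exists_isMAC hw (ι := Unit) (fun _ => 2) (fun _ => m) (fun _ => le_rfl)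
      (fun _ => by omega) _ (by simp)
  · by_cases h3 : 3 ≤ k
    · by_cases h4 : k = m
      · exact Odd.odd_small h3 h4.le hw (h (by omega) h3)
      · exact Odd.odd_all h3 (by omega) hw
    · obtain rfl | rfl : k = 1 ∨ k = 2 := by omega
      · exact exists_isMAC hw (ι := Unit) (fun _ => 2 * m + 1) (fun _ => 1) (fun _ => by omega)
          (fun _ => le_rfl) _ (by simp)
      · obtain ⟨l, rfl⟩ : ∃ l, m = l + 2 := ⟨m - 2, by omega⟩
        exact exists_odd l hw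

end Pool.Agent.Results.MP_1dd261_pr.Half
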